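import Pool.Agent.Y817.BC.Stm

/-!
Project BC (helper817), job BC-TVAL: the configuration of an odometer satisfies all rules.
-/

set_option autoImplicit false

namespace Pool.Agent.Y986.BC

open Pool.Agent.Y817.BC Pool.Agent.Helper273.Machine

theorem isH_iff (D : Odo) (x z : ℤ) : (D.hl x z).ty.isH = true ↔ D.lev x < D.lev z := by
  unfold Odo.hl
  simp only
  split_ifs with h1 h2 h3 h4 <;> simp [Ty.isH] <;> omega

theorem isH_pos (D : Odo) (x z : ℤ) : (D.hl x z).ty.isH = true ↔ D.pos x (D.lev z) ≠ 0 := by
  rw [isH_iff, Ne, D.pos_zero]; omega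

theorem ty_C (D : Odo) (x z : ℤ) (h : (D.hl x z).ty = .C) : D.lev x = D.lev z := by
  unfold Odo.hl at h
  simp only at h
  split_ifs at h with h1 <;> first | exact h1 | exact absurd h (by decide)

theorem regs_le (M : Mch) (t : ℕ) : ∀ i, (M.run t).2 i ≤ t := by
  induction t with
  | zero => intro i; simp [Mch.run]
  | succ t ih =>
    intro i
    have e : M.run (t + 1) = mstep M.ins (M.run t) := by
      unfold Mch.run; rw [Function.iterate_succ_apply']
    rw [e]
    unfold mstep
    have h := ih
    cases hI : M.ins (M.run t).1 with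
    | inc r q =>
      simp only
      by_cases hi : i = r
      · subst hi; rw [Function.update_self]; have := h i; omega
      · rw [Function.update_of_ne hi]; have := h i; omega
    | dec r q q' =>
      simp only
      split_ifs with h0
      · have := h i; simp only; omega
      · simp only
        by_cases hi : i = r
        · subst hi; rw [Function.update_self]; have := h i; omega
        · rw [Function.update_of_ne hi]; have := h i; omega
    | jmp q =>
      simp only
      have := h i; omega

theorem run_succ (M : Mch) (t : ℕ) : M.run (t + 1) = mstep M.ins (M.run t) := by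
  unfold Mch.run; rw [Function.iterate_succ_apply']

theorem pos_next (D : Odo) (x : ℤ) (k : ℕ) (h : D.pos (x + 1) k ≠ 0) :
    D.pos (x + 1) k = D.pos x k + 1 := by
  have := D.pos_succ x k
  split_ifs at this with h1
  · exact absurd this h
  · exact this

theorem pos_last (D : Odo) (x : ℤ) (k : ℕ) (h : D.pos (x + 1) k = 0) :
    D.pos x k + 1 = 2 ^ k := by
  have := D.pos_succ x k
  split_ifs at this with h1
  · exact h1
  · omega

theorem t (h : StmHl2) : StmTVal := by
  intro D M P hP t i
  have n01 : (0 : Fin 3) ≠ 1 := by decide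
  have n02 : (0 : Fin 3) ≠ 2 := by decide
  have n12 : (1 : Fin 3) ≠ 2 := by decide
  fin_cases i
  · -- direction x
    have a0 : (t + e 0) 0 = t 0 + 1 := by simp [e]
    have a1 : (t + e 0) 1 = t 1 := by simp [e]
    have a2 : (t + e 0) 2 = t 2 := by simp [e]
    show Lam.R0 (D.T M P t) (D.T M P (t + e 0))
    have hA := (h D (t 0) (t 2)).1
    have hB := (h D (t 1) (t 2)).1
    refine ⟨⟨hA, hB, rfl, rfl, ?_, ?_⟩, ?_, ?_, ?_, ?_, ?_, ?_⟩
    · intro hc
      have := ty_C D _ _ hc
      show P (D.lev (t 0)) = P (D.lev (t 2))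
      rw [this]
    · intro hin hm b hb
      have h1 : D.pos (t 0) (D.lev (t 2)) ≠ 0 := (isH_pos D _ _).1 hin.1
      have h2 : (M.run (D.pos (t 1) (D.lev (t 2)) - 1)).2 0 + 1 = D.pos (t 0) (D.lev (t 2)) :=
        of_decide_eq_true hm
      have h3 := hP _ b hb
      rw [h2, ← D.lev_pos _ _ h1] at h3
      exact h3
    · show HL.Hor (D.hl (t 0) (t 2)) (D.hl ((t + e 0) 0) ((t + e 0) 2))
      rw [a0, a2]
      exact (h D (t 0) (t 2)).2.1
    · show D.hl ((t + e 0) 1) ((t + e 0) 2) = D.hl (t 1) (t 2)
      rw [a1, a2]
    · show P (D.lev ((t + e 0) 2)) = P (D.lev (t 2))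
      rw [a2]
    · intro ha hb
      have h1 : D.pos (t 0) (D.lev (t 2)) ≠ 0 := (isH_pos D _ _).1 ha.1
      have h2 : D.pos (t 0 + 1) (D.lev (t 2)) ≠ 0 := by
        have := (isH_pos D _ _).1 hb.1
        rwa [a0, a2] at this
      have h3 := pos_next D _ _ h2
      have h4 := D.pos_lt (t 0 + 1) (D.lev (t 2))
      refine ⟨?_, ?_, ?_, ?_, ?_⟩
      · simp only [Odo.T, a1, a2]
      · simp only [Odo.T, a1, a2]
      · funext i
        simp only [Odo.T, a0, a1, a2, h3]
        exact decide_eq_decide.2 (by omega)
      · funext i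
        simp only [Odo.T, a0, a1, a2, h3]
        rw [h3] at h4
        exact decide_eq_decide.2 (by omega)
      · simp only [Odo.T, a0, a1, a2, h3]
        exact decide_eq_false (by omega)
    · intro ha hb
      have hBi : (D.hl (t 1) (t 2)).ty.isH = true := by
        have := hb.2
        simp only [Odo.T, a1, a2] at this
        exact this
      have h1 : D.pos (t 0) (D.lev (t 2)) = 0 := by
        by_contra hne
        exact ha ⟨(isH_pos D _ _).2 hne, hBi⟩
      have h2 : D.pos (t 0 + 1) (D.lev (t 2)) ≠ 0 := by
        have := (isH_pos D _ _).1 hb.1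
        rwa [a0, a2] at this
      have h3 := pos_next D _ _ h2
      rw [h1] at h3
      refine ⟨?_, ?_, ?_⟩
      · simp only [Odo.T, a0, a1, a2, h3]
        rfl
      · intro i
        simp only [Odo.T, a0, a1, a2, h3]
        exact decide_eq_false (by omega)
      · funext i
        simp only [Odo.T, a0, a1, a2, h3]
        refine decide_eq_decide.2 ?_
        omega
    · intro ha hb i
      have h1 : D.pos (t 0 + 1) (D.lev (t 2)) = 0 := by
        by_contra hne
        apply hb
        refine ⟨?_, ?_⟩
        · show (D.hl ((t + e 0) 0) ((t + e 0) 2)).ty.isH = true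
          rw [a0, a2]
          exact (isH_pos D _ _).2 hne
        · show (D.hl ((t + e 0) 1) ((t + e 0) 2)).ty.isH = true
          rw [a1, a2]
          exact ha.2
      have h2 := pos_last D _ _ h1
      simp only [Odo.T]
      exact decide_eq_false (by omega)
  · -- direction y
    have a0 : (t + e 1) 0 = t 0 := by simp [e]
    have a1 : (t + e 1) 1 = t 1 + 1 := by simp [e]
    have a2 : (t + e 1) 2 = t 2 := by simp [e]
    show Lam.R1 (D.T M P t) (D.T M P (t + e 1))
    refine ⟨?_, ?_, ?_, ?_, ?_, ?_⟩
    · show HL.Hor (D.hl (t 1) (t 2)) (D.hl ((t + e 1) 1) ((t + e 1) 2))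
      rw [a1, a2]
      exact (h D (t 1) (t 2)).2.1
    · show D.hl ((t + e 1) 0) ((t + e 1) 2) = D.hl (t 0) (t 2)
      rw [a0, a2]
    · show P (D.lev ((t + e 1) 0)) = P (D.lev (t 0))
      rw [a0]
    · show P (D.lev ((t + e 1) 2)) = P (D.lev (t 2))
      rw [a2]
    · intro ha hb
      have h1 : D.pos (t 1) (D.lev (t 2)) ≠ 0 := (isH_pos D _ _).1 ha.2
      have h2 : D.pos (t 1 + 1) (D.lev (t 2)) ≠ 0 := by
        have := (isH_pos D _ _).1 hb.2
        rwa [a1, a2] at this
      have h3 := pos_next D _ _ h2
      have h4 := D.pos_lt (t 1 + 1) (D.lev (t 2))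
      obtain ⟨τ, hτ⟩ : ∃ τ, D.pos (t 1) (D.lev (t 2)) = τ + 1 :=
        Nat.exists_eq_succ_of_ne_zero h1
      have hr := regs_le M τ
      have hs := run_succ M τ
      have eq1 : (D.T M P (t + e 1)).q = (mstep M.ins (M.run τ)).1 := by
        simp only [Odo.T, a1, a2, h3, hτ]
        rw [show τ + 1 + 1 - 1 = τ + 1 by omega, hs]
      have em1 : (D.T M P (t + e 1)).m = fun i =>
          decide ((mstep M.ins (M.run τ)).2 i + 1 = D.pos (t 0) (D.lev (t 2))) := by
        funext i
        simp only [Odo.T, a0, a1, a2, h3, hτ]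
        rw [show τ + 1 + 1 - 1 = τ + 1 by omega, hs]
      have eq0 : (D.T M P t).q = (M.run τ).1 := by
        simp only [Odo.T, hτ]
        rw [show τ + 1 - 1 = τ by omega]
      have em0 : (D.T M P t).m = fun i =>
          decide ((M.run τ).2 i + 1 = D.pos (t 0) (D.lev (t 2))) := by
        funext i
        simp only [Odo.T, hτ]
        rw [show τ + 1 - 1 = τ by omega]
      have ez0 : ∀ i, (D.T M P t).zr i = decide ((M.run τ).2 i = 0) := by
        intro i
        simp only [Odo.T, hτ]
        rw [show τ + 1 - 1 = τ by omega]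
      have eL0 : ∀ i, (D.T M P t).mL i =
          decide ((M.run τ).2 i + 2 = D.pos (t 0) (D.lev (t 2))) := by
        intro i
        simp only [Odo.T, hτ]
        rw [show τ + 1 - 1 = τ by omega]
      have eR0 : ∀ i, (D.T M P t).mR i = decide ((M.run τ).2 i = D.pos (t 0) (D.lev (t 2)) ∧
          D.pos (t 0) (D.lev (t 2)) + 1 < 2 ^ (D.lev (t 2))) := by
        intro i
        simp only [Odo.T, hτ]
        rw [show τ + 1 - 1 = τ by omega]
      rw [eq1, em1]
      unfold Lam.nxt mstep
      rw [eq0, em0]
      rw [h3, hτ] at h4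
      cases hI : M.ins (M.run τ).1 with
      | inc r q =>
        simp only
        refine ⟨trivial, ?_⟩
        funext i
        by_cases hi : i = r
        · subst hi
          simp only [Function.update_self, eL0]
        · simp only [Function.update_of_ne hi]
      | dec r q q' =>
        simp only
        rw [ez0]
        by_cases h0 : (M.run τ).2 r = 0
        · simp only [h0, decide_true, if_true]
          exact ⟨trivial, trivial⟩
        · simp only [h0, decide_false, if_false, Bool.false_eq_true]
          refine ⟨trivial, ?_⟩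
          funext i
          by_cases hi : i = r
          · subst hi
            simp only [Function.update_self, eR0]
            have := hr i
            refine decide_eq_decide.2 ?_
            omega
          · simp only [Function.update_of_ne hi]
      | jmp q =>
        simp only
        exact ⟨trivial, trivial⟩
    · intro ha hb
      have hAi : (D.hl (t 0) (t 2)).ty.isH = true := by
        have := hb.1
        simp only [Odo.T, a0, a2] at this
        exact this
      have h1 : D.pos (t 1) (D.lev (t 2)) = 0 := by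
        by_contra hne
        exact ha ⟨hAi, (isH_pos D _ _).2 hne⟩
      have h2 : D.pos (t 1 + 1) (D.lev (t 2)) ≠ 0 := by
        have := (isH_pos D _ _).1 hb.2
        rwa [a1, a2] at this
      have h3 := pos_next D _ _ h2
      rw [h1] at h3
      refine ⟨?_, ?_⟩
      · simp only [Odo.T, a1, a2, h3]
        rfl
      · intro i
        simp only [Odo.T, a0, a1, a2, h3]
        refine decide_eq_decide.2 ?_
        have : (M.run (0 + 1 - 1)).2 i = 0 := rfl
        rw [this]
        omega
  · have a0 : (t + e 2) 0 = t 0 := by simp [e]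
    have a1 : (t + e 2) 1 = t 1 := by simp [e]
    have a2 : (t + e 2) 2 = t 2 + 1 := by simp [e]
    show Lam.R2 (D.T M P t) (D.T M P (t + e 2))
    refine ⟨?_, ?_, ?_⟩
    · show HL.Ver (D.hl (t 0) (t 2)) (D.hl ((t + e 2) 0) ((t + e 2) 2))
      rw [a0, a2]
      exact (h D (t 0) (t 2)).2.2
    · show HL.Ver (D.hl (t 1) (t 2)) (D.hl ((t + e 2) 1) ((t + e 2) 2))
      rw [a1, a2]
      exact (h D (t 1) (t 2)).2.2
    · show P (D.lev ((t + e 2) 0)) = P (D.lev (t 0))
      rw [a0]

end Pool.Agent.Y986.BC
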